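import Mathlib

/-!
# Minimal closed right ideals of the semigroup of ultrafilters on the Heisenberg group

Let `G` be the discrete Heisenberg group.  We construct, for every `K`, a set `U ⊆ G` such that

* `U` is completely syndetic: for every `n` there is a finite `F` such that every `T ⊆ G` with at
  most `n` elements satisfies `f T ⊆ U` for some `f ∈ F`;
* `U` is disjoint from `(i, 0, 0) U` for all integers `i ≠ 0` with `|i| ≤ K`.

The closure of `U` in `βG` contains a closed right ideal, hence a minimal one, `R`, and the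
translates `(i, 0, 0) R`, `0 ≤ i ≤ K`, are pairwise different minimal closed right ideals.

Construction of `U`.  Level `m` has a modulus `L m`, a box `B m`, and the set `W m` of all
`(a, b, c)` with `(a, b)` congruent modulo `L m` to one of `2 m + 1` points `(α j, (R + 1) α j)`
(`α j` lacunary) and `c` modulo `L m` in an interval `[0, h m)`.  The moduli are pairwise coprime
and everything grows very fast.  A point of `W m` is accepted if no point of its translates under
`B m` is accepted at a higher level; `U` is the set of accepted points (we use the levels below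
`M` only, and pass to a limit in `M`).

The noncommutativity enters in `level_choice`: if `f t₀ ∈ W m` and `t` is in a different fibre
over the abelianisation, then the height of `g f t` relative to `f t₀` depends on the residue class
of the fibre of `f t₀`, so that all but few of the `2 m + 1` classes keep `f t` away from `W m`.
-/

namespace Pool.Agent.Results.MP_be5e04_al.HeisenbergManyIdeals

open Filter Set

attribute [local instance] Ultrafilter.mul Ultrafilter.semigroup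

/-- The discrete Heisenberg group: triples of integers with the product
`(a, b, c) * (a', b', c') = (a + a', b + b', c + c' + a * b')`. -/
@[ext] structure Heis where
  a : ℤ
  b : ℤ
  c : ℤ

namespace Heis

instance : Mul Heis := ⟨fun x y => ⟨x.a + y.a, x.b + y.b, x.c + y.c + x.a * y.b⟩⟩
instance : One Heis := ⟨⟨0, 0, 0⟩⟩
instance : Inv Heis := ⟨fun x => ⟨-x.a, -x.b, -x.c + x.a * x.b⟩⟩

@[simp] lemma mul_a (x y : Heis) : (x * y).a = x.a + y.a := rfl
@[simp] lemma mul_b (x y : Heis) : (x * y).b = x.b + y.b := rfl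
@[simp] lemma mul_c (x y : Heis) : (x * y).c = x.c + y.c + x.a * y.b := rfl
@[simp] lemma one_a : (1 : Heis).a = 0 := rfl
@[simp] lemma one_b : (1 : Heis).b = 0 := rfl
@[simp] lemma one_c : (1 : Heis).c = 0 := rfl
@[simp] lemma inv_a (x : Heis) : (x⁻¹).a = -x.a := rfl
@[simp] lemma inv_b (x : Heis) : (x⁻¹).b = -x.b := rfl
@[simp] lemma inv_c (x : Heis) : (x⁻¹).c = -x.c + x.a * x.b := rfl

instance : Group Heis :=
  Group.ofLeftAxioms
    (fun x y z => by ext <;> simp <;> ring)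
    (fun x => by ext <;> simp)
    (fun x => by ext <;> simp)

end Heis

/-- A closed right ideal of the semigroup of ultrafilters on `G`: a nonempty closed set `R`
with `R * βG ⊆ R`. -/
def IsClosedRightIdeal {G : Type} [Group G] (R : Set (Ultrafilter G)) : Prop :=
  R.Nonempty ∧ IsClosed R ∧ ∀ p ∈ R, ∀ q : Ultrafilter G, p * q ∈ R

/-- A minimal closed right ideal: a closed right ideal containing no strictly smaller one. -/
def IsMinimalClosedRightIdeal {G : Type} [Group G] (R : Set (Ultrafilter G)) : Prop :=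
  IsClosedRightIdeal R ∧ ∀ R', IsClosedRightIdeal R' → R' ⊆ R → R' = R

section general

variable {G : Type} [Group G]

lemma mem_mul_iff (p q : Ultrafilter G) (A : Set G) :
    A ∈ p * q ↔ {g | {h | g * h ∈ A} ∈ q} ∈ p :=
  Ultrafilter.eventually_mul p q (fun x => x ∈ A)

lemma mem_pure_mul_iff (g : G) (q : Ultrafilter G) (A : Set G) :
    A ∈ (pure g : Ultrafilter G) * q ↔ {h | g * h ∈ A} ∈ q := by
  rw [mem_mul_iff]; rfl

lemma continuous_pure_mul (g : G) :
    Continuous (fun q : Ultrafilter G => (pure g : Ultrafilter G) * q) := by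
  refine continuous_generateFrom_iff.2 ?_
  rintro _ ⟨A, rfl⟩
  have : (fun q : Ultrafilter G => (pure g : Ultrafilter G) * q) ⁻¹' {u | A ∈ u}
      = {u | {h | g * h ∈ A} ∈ u} := by
    ext q; exact mem_pure_mul_iff g q A
  rw [this]
  exact ultrafilter_isOpen_basic _

/-- Every closed right ideal contains a minimal one. -/
lemma exists_minimal {R₀ : Set (Ultrafilter G)} (h₀ : IsClosedRightIdeal R₀) :
    ∃ R, IsMinimalClosedRightIdeal R ∧ R ⊆ R₀ := by
  obtain ⟨R, hR⟩ := zorn_superset {R : Set (Ultrafilter G) | IsClosedRightIdeal R ∧ R ⊆ R₀} (by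
    intro c hc hchain
    rcases c.eq_empty_or_nonempty with rfl | hne
    · exact ⟨R₀, ⟨h₀, subset_rfl⟩, by simp⟩
    · refine ⟨⋂₀ c, ⟨⟨?_, ?_, ?_⟩, ?_⟩, fun s hs => sInter_subset_of_mem hs⟩
      · have : Nonempty c := hne.to_subtype
        rw [sInter_eq_iInter]
        refine IsCompact.nonempty_iInter_of_directed_nonempty_isCompact_isClosed _ ?_ ?_ ?_ ?_
        · intro x y
          rcases hchain.total x.2 y.2 with h | h
          · exact ⟨x, subset_rfl, h⟩
          · exact ⟨y, h, subset_rfl⟩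
        · intro x; exact (hc x.2).1.1
        · intro x; exact (hc x.2).1.2.1.isCompact
        · intro x; exact (hc x.2).1.2.1
      · exact isClosed_sInter fun s hs => (hc hs).1.2.1
      · intro p hp q s hs
        exact (hc hs).1.2.2 p (hp s hs) q
      · obtain ⟨s, hs⟩ := hne
        exact (sInter_subset_of_mem hs).trans (hc hs).2)
  refine ⟨R, ⟨hR.prop.1, fun R' h' hsub => ?_⟩, hR.prop.2⟩
  exact subset_antisymm hsub (hR.le_of_le ⟨h', hsub.trans hR.prop.2⟩ hsub)

/-- The translate `g R`. -/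
def trans (g : G) (R : Set (Ultrafilter G)) : Set (Ultrafilter G) :=
  {s | (pure g⁻¹ : Ultrafilter G) * s ∈ R}

lemma pure_mul_pure_mul (g h : G) (q : Ultrafilter G) :
    (pure g : Ultrafilter G) * ((pure h : Ultrafilter G) * q) = (pure (g * h)) * q := by
  refine Ultrafilter.ext fun A => ?_
  rw [mem_pure_mul_iff, mem_pure_mul_iff, mem_pure_mul_iff]
  simp only [mul_assoc]
  rfl

lemma pure_one_mul (q : Ultrafilter G) : (pure 1 : Ultrafilter G) * q = q := by
  refine Ultrafilter.ext fun A => ?_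
  rw [mem_pure_mul_iff]
  simp

lemma trans_ideal (g : G) {R : Set (Ultrafilter G)} (hR : IsClosedRightIdeal R) :
    IsClosedRightIdeal (trans g R) := by
  refine ⟨?_, ?_, ?_⟩
  · obtain ⟨r, hr⟩ := hR.1
    refine ⟨(pure g) * r, ?_⟩
    show (pure g⁻¹ : Ultrafilter G) * ((pure g) * r) ∈ R
    rw [pure_mul_pure_mul, inv_mul_cancel, pure_one_mul]; exact hr
  · exact hR.2.1.preimage (continuous_pure_mul g⁻¹)
  · intro p hp q
    show (pure g⁻¹ : Ultrafilter G) * (p * q) ∈ R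
    rw [← mul_assoc]
    exact hR.2.2 _ hp q

lemma trans_trans (g h : G) (R : Set (Ultrafilter G)) : trans g (trans h R) = trans (g * h) R := by
  ext s
  show (pure h⁻¹ : Ultrafilter G) * ((pure g⁻¹) * s) ∈ R ↔ (pure (g * h)⁻¹ : Ultrafilter G) * s ∈ R
  rw [pure_mul_pure_mul, mul_inv_rev]

lemma trans_one (R : Set (Ultrafilter G)) : trans (1 : G) R = R := by
  ext s
  show (pure (1 : G)⁻¹ : Ultrafilter G) * s ∈ R ↔ s ∈ R
  rw [inv_one, pure_one_mul]

lemma trans_minimal (g : G) {R : Set (Ultrafilter G)} (hR : IsMinimalClosedRightIdeal R) :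
    IsMinimalClosedRightIdeal (trans g R) := by
  refine ⟨trans_ideal g hR.1, fun R' h' hsub => ?_⟩
  have h1 : trans g⁻¹ R' ⊆ R := by
    intro s hs
    have : (pure (g⁻¹)⁻¹ : Ultrafilter G) * s ∈ trans g R := hsub hs
    have h2 : (pure g⁻¹ : Ultrafilter G) * ((pure (g⁻¹)⁻¹) * s) ∈ R := this
    rwa [pure_mul_pure_mul, mul_inv_cancel, pure_one_mul] at h2
  have h2 := hR.2 _ (trans_ideal g⁻¹ h') h1
  rw [← h2, trans_trans, mul_inv_cancel, trans_one]

/-- If finite sets can be moved into `A` by boundedly many translations (the set `A` is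
completely syndetic), then some closed right ideal consists of ultrafilters containing `A`. -/
lemma exists_ideal (A : Set G)
    (hA : ∀ n : ℕ, ∃ F : Set G, F.Finite ∧ ∀ T : Finset G, T.card ≤ n → ∃ f ∈ F, ∀ t ∈ T, f * t ∈ A) :
    ∃ R, IsClosedRightIdeal R ∧ ∀ r ∈ R, A ∈ r := by
  classical
  obtain ⟨p, hp⟩ : ∃ p : Ultrafilter G,
      range (fun q : Ultrafilter G => {g | {h | g * h ∈ A} ∈ q}) ⊆ p.sets := by
    refine Ultrafilter.exists_ultrafilter_of_finite_inter_nonempty _ ?_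
    intro T hT
    by_contra hcon
    rw [Set.not_nonempty_iff_eq_empty] at hcon
    obtain ⟨F, hF, hF'⟩ := hA T.card
    have hT' : ∀ s : Set G, s ∈ T → ∃ q : Ultrafilter G, {g | {h | g * h ∈ A} ∈ q} = s :=
      fun s hs => hT hs
    choose! q hq using hT'
    have hmem : ∀ s ∈ T, {h : G | ∀ f ∈ F, f ∉ s → f * h ∉ A} ∈ q s := by
      intro s hs
      have : {h : G | ∀ f ∈ F, f ∉ s → f * h ∉ A} = ⋂ f ∈ F, {h | f ∉ s → f * h ∉ A} := by
        ext h; simp
      rw [this]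
      refine (Filter.biInter_mem hF).2 fun f _ => ?_
      by_cases hfs : f ∈ s
      · have : {h : G | f ∉ s → f * h ∉ A} = univ := by
          ext h; simp [hfs]
        rw [this]; exact univ_mem
      · have h1 : ¬ {h | f * h ∈ A} ∈ q s := by
          intro h2
          apply hfs
          rw [← hq s hs]
          exact h2
        have h2 := Ultrafilter.compl_mem_iff_notMem.2 h1
        exact Filter.mem_of_superset h2 fun h hh _ => hh
    have hne : ∀ s ∈ T, ∃ h : G, ∀ f ∈ F, f ∉ s → f * h ∉ A := by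
      intro s hs
      obtain ⟨h, hh⟩ := Ultrafilter.nonempty_of_mem (hmem s hs)
      exact ⟨h, hh⟩
    choose! x hx using hne
    obtain ⟨f, hf, hf'⟩ := hF' (T.image x) Finset.card_image_le
    have : f ∈ ⋂₀ (T : Set (Set G)) := by
      intro s hs
      by_contra hfs
      exact hx s hs f hf hfs (hf' _ (Finset.mem_image_of_mem x hs))
    rw [hcon] at this
    exact this
  have hp' : ∀ q : Ultrafilter G, A ∈ p * q := fun q => by
    rw [mem_mul_iff]
    exact hp ⟨q, rfl⟩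
  refine ⟨{r | A ∈ r} ∩ ⋂ q : Ultrafilter G, {r | A ∈ r * q}, ⟨?_, ?_, ?_⟩, fun r hr => hr.1⟩
  · refine ⟨p * p, hp' p, ?_⟩
    rw [mem_iInter]
    intro q
    show A ∈ p * p * q
    rw [mul_assoc]
    exact hp' _
  · refine (ultrafilter_isClosed_basic A).inter (isClosed_iInter fun q => ?_)
    exact (ultrafilter_isClosed_basic A).preimage (Ultrafilter.continuous_mul_left q)
  · rintro r ⟨_, hr⟩ q
    rw [mem_iInter] at hr
    refine ⟨hr q, ?_⟩
    rw [mem_iInter]
    intro q'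
    show A ∈ r * q * q'
    rw [mul_assoc]
    exact hr _

end general

/-! ### One level -/

/-- the length of the central intervals -/
def hh (m R : ℕ) : ℕ := 2 * R * m + 1

/-- the spacing of the lacunary sequence -/
def DD (m R : ℕ) : ℕ := 2 * (hh m R + R)

/-- the lacunary sequence -/
def al (m R j : ℕ) : ℤ := (DD m R : ℤ) * 4 ^ j

/-- how large the modulus has to be -/
def XX (m R : ℕ) : ℕ := 8 * (R + 1) ^ 2 * DD m R * 4 ^ (2 * m + 1)

/-- the periodic set of one level -/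
def InW (m R L : ℕ) (x : Heis) : Prop :=
  ∃ j < 2 * m + 1, ∃ y < hh m R, (x.a : ZMod L) = ((al m R j : ℤ) : ZMod L) ∧
    (x.b : ZMod L) = ((((R : ℤ) + 1) * al m R j : ℤ) : ZMod L) ∧ (x.c : ZMod L) = ((y : ℤ) : ZMod L)

/-- the box -/
def InB (R : ℕ) (x : Heis) : Prop :=
  |x.a| ≤ R ∧ |x.b| ≤ R ∧ |x.c| ≤ R ∧ |x.a * x.b - x.c| ≤ R

lemma InB.inv {R : ℕ} {x : Heis} (h : InB R x) : InB R x⁻¹ := by
  obtain ⟨h1, h2, h3, h4⟩ := h
  refine ⟨by simpa using h1, by simpa using h2, ?_, ?_⟩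
  · simp only [Heis.inv_c]; rwa [show -x.c + x.a * x.b = x.a * x.b - x.c by ring]
  · simp only [Heis.inv_c, Heis.inv_a, Heis.inv_b]
    rwa [show -x.a * -x.b - (-x.c + x.a * x.b) = x.c by ring]

lemma InB.mono {R R' : ℕ} (hR : R ≤ R') {x : Heis} (h : InB R x) : InB R' x := by
  have : (R : ℤ) ≤ R' := by exact_mod_cast hR
  obtain ⟨h1, h2, h3, h4⟩ := h
  exact ⟨h1.trans this, h2.trans this, h3.trans this, h4.trans this⟩

lemma eq_of_cast_eq {L : ℕ} {x y : ℤ} (h : (x : ZMod L) = (y : ZMod L)) (hlt : |x - y| < L) :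
    x = y := by
  have h1 : ((x - y : ℤ) : ZMod L) = 0 := by push_cast; rw [h]; ring
  rw [ZMod.intCast_zmod_eq_zero_iff_dvd] at h1
  have := Int.eq_zero_of_abs_lt_dvd h1 hlt
  linarith

lemma four_pow {j j' k k' : ℕ} (h : (4 : ℤ) ^ j' + 4 ^ k = 4 ^ k' + 4 ^ j) (hj : j' ≠ j) : j = k := by
  have key : ∀ {u v : ℕ}, u < v → (4 : ℤ) * 4 ^ u ≤ 4 ^ v := by
    intro u v huv
    calc (4 : ℤ) * 4 ^ u = 4 ^ (u + 1) := by ring
      _ ≤ 4 ^ v := pow_le_pow_right₀ (by norm_num) huv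
  have inj : ∀ {u v : ℕ}, (4 : ℤ) ^ u = 4 ^ v → u = v := by
    intro u v huv
    exact_mod_cast Nat.pow_right_injective (le_refl 4 |>.trans' (by norm_num)) (by exact_mod_cast huv)
  have p : ∀ u : ℕ, (0 : ℤ) < 4 ^ u := fun u => by positivity
  have p1 := p j; have p2 := p j'; have p3 := p k; have p4 := p k'
  by_contra hjk
  rcases lt_trichotomy j' k' with h1 | h1 | h1
  · have e1 := key h1
    rcases lt_trichotomy k k' with h2 | h2 | h2
    · have e2 := key h2; linarith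
    · subst h2
      exact hj (inj (by linarith))
    · rcases lt_trichotomy k j with h3 | h3 | h3
      · have e3 := key h3; have e4 := key h2; linarith
      · exact hjk h3.symm
      · have e3 := key h3; have e4 := key h2; linarith
  · subst h1
    exact hjk (inj (by linarith))
  · have e1 := key h1
    rcases lt_trichotomy j' j with h2 | h2 | h2
    · have e2 := key h2
      rcases lt_trichotomy k j with h3 | h3 | h3
      · have e3 := key h3; linarith
      · exact hjk h3.symm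
      · have e3 := key h3; linarith
    · exact hj h2
    · have e2 := key h2; linarith

lemma DD_pos (m R : ℕ) : 0 < DD m R := by unfold DD hh; positivity

lemma al_pos (m R j : ℕ) : 0 < al m R j := by
  unfold al; have := DD_pos m R; positivity

lemma al_lt (m R : ℕ) {j : ℕ} (hj : j < 2 * m + 1) : 4 * al m R j ≤ DD m R * 4 ^ (2 * m + 1) := by
  unfold al
  have h1 : (4 : ℤ) * 4 ^ j ≤ 4 ^ (2 * m + 1) := by
    calc (4 : ℤ) * 4 ^ j = 4 ^ (j + 1) := by ring
      _ ≤ 4 ^ (2 * m + 1) := pow_le_pow_right₀ (by norm_num) hj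
  have := DD_pos m R
  have h2 : (0 : ℤ) < DD m R := by exact_mod_cast this
  nlinarith

lemma al_sep (m R : ℕ) {j k : ℕ} (hjk : j ≠ k) : 3 * (DD m R : ℤ) ≤ |al m R j - al m R k| := by
  have h2 : (0 : ℤ) < DD m R := by exact_mod_cast DD_pos m R
  have key : ∀ {u v : ℕ}, u < v → 3 * (DD m R : ℤ) ≤ al m R v - al m R u := by
    intro u v huv
    unfold al
    have h3 : (4 : ℤ) * 4 ^ u ≤ 4 ^ v := by
      calc (4 : ℤ) * 4 ^ u = 4 ^ (u + 1) := by ring
        _ ≤ 4 ^ v := pow_le_pow_right₀ (by norm_num) huv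
    have h4 : (1 : ℤ) ≤ 4 ^ u := one_le_pow₀ (by norm_num)
    nlinarith
  rcases lt_or_gt_of_ne hjk with h | h
  · rw [abs_sub_comm]; exact (key h).trans (le_abs_self _)
  · exact (key h).trans (le_abs_self _)

lemma two_R_lt {m R : ℕ} : 2 * (R : ℤ) < DD m R ∧ 2 * ((hh m R : ℤ) + R) = DD m R := by
  unfold DD hh
  push_cast
  constructor
  · nlinarith [Nat.cast_nonneg (α := ℤ) R, Nat.cast_nonneg (α := ℤ) m,
      mul_nonneg (Nat.cast_nonneg (α := ℤ) R) (Nat.cast_nonneg (α := ℤ) m)]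
  · ring

section level

variable {m R L : ℕ} (hL : XX m R ≤ L)

include hL

lemma bound1 {j : ℕ} (hj : j < 2 * m + 1) : 32 * ((R : ℤ) + 1) ^ 2 * al m R j ≤ L := by
  have h1 := al_lt m R hj
  have h2 : (XX m R : ℤ) ≤ L := by exact_mod_cast hL
  unfold XX at h2
  push_cast at h2
  have h3 : (0 : ℤ) ≤ 8 * ((R : ℤ) + 1) ^ 2 := by positivity
  nlinarith [mul_le_mul_of_nonneg_left h1 h3]

lemma bound2 : 32 * ((R : ℤ) + 1) ^ 2 * DD m R ≤ L := by
  have h1 := bound1 hL (j := 0) (by omega)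
  unfold al at h1
  simpa using h1

lemma bound3 : 32 * (DD m R : ℤ) ≤ L := by
  have h1 := bound2 hL
  have h2 : (0 : ℤ) < DD m R := by exact_mod_cast DD_pos m R
  have h3 : (1 : ℤ) ≤ ((R : ℤ) + 1) ^ 2 := by nlinarith [Nat.cast_nonneg (α := ℤ) R]
  nlinarith [mul_le_mul_of_nonneg_left h3 h2.le]

/-- separation of the fibres of one level -/
lemma InW_sep {x g : Heis} (hx : InW m R L x) (hg : InB R g) (hgx : InW m R L (g * x)) :
    g.a = 0 ∧ g.b = 0 := by
  obtain ⟨j, hj, y, hy, h1, h2, h3⟩ := hx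
  obtain ⟨k, hk, y', hy', h1', h2', h3'⟩ := hgx
  obtain ⟨g1, g2, g3, g4⟩ := hg
  have b3 := bound3 hL
  have bR := (two_R_lt (m := m) (R := R)).1
  have bj := bound1 hL hj
  have bk := bound1 hL hk
  have hR1 : (1 : ℤ) ≤ ((R : ℤ) + 1) ^ 2 := by nlinarith [Nat.cast_nonneg (α := ℤ) R]
  have pj := al_pos m R j
  have pk := al_pos m R k
  have bj' : 32 * al m R j ≤ L := by nlinarith
  have bk' : 32 * al m R k ≤ L := by nlinarith
  rw [abs_le] at g1 g2
  have e1 : g.a = al m R k - al m R j := by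
    apply eq_of_cast_eq (L := L)
    · simp only [Heis.mul_a] at h1'
      push_cast at h1' ⊢
      linear_combination h1' - h1
    · rw [abs_lt]; constructor <;> linarith
  have hjk : k = j := by
    by_contra hne
    have := al_sep m R hne
    rw [← e1] at this
    have h5 : |g.a| ≤ R := abs_le.2 g1
    linarith [Nat.cast_nonneg (α := ℤ) R]
  subst hjk
  refine ⟨by rw [e1]; ring, ?_⟩
  apply eq_of_cast_eq (L := L)
  · simp only [Heis.mul_b] at h2'
    push_cast at h2' h2 ⊢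
    linear_combination h2' - h2
  · rw [abs_lt]; constructor <;> linarith


/-- first kind of bad index -/
def BadA (m R L : ℕ) (t0 t : Heis) (j : ℕ) : Prop :=
  ∃ j' < 2 * m + 1, j' ≠ j ∧ ∃ w : ℤ, |w| ≤ R ∧
    ((w + (t.a - t0.a) : ℤ) : ZMod L) = ((al m R j' - al m R j : ℤ) : ZMod L)

/-- second kind of bad index -/
def BadB (m R L : ℕ) (t0 t : Heis) (j : ℕ) : Prop :=
  ∃ w1 w2 : ℤ, |w1| ≤ R ∧ |w2| ≤ R ∧ ¬ (w1 = 0 ∧ w2 = 0) ∧
    (w1 : ZMod L) = ((-(t.a - t0.a) : ℤ) : ZMod L) ∧ (w2 : ZMod L) = ((-(t.b - t0.b) : ℤ) : ZMod L) ∧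
    ∃ z : ℤ, |z| < hh m R + R ∧
      (((t.c - t0.c) + t0.a * w2 - w1 * w2 + (w1 * ((R : ℤ) + 1) - w2) * al m R j : ℤ) : ZMod L)
        = (z : ZMod L)

/-- bad heights -/
def BadY (L : ℕ) (t0 t : Heis) (y : ℕ) (z : ℤ) : Prop :=
  ((y + (t.c - t0.c) : ℤ) : ZMod L) = (z : ZMod L)

lemma BadA_unique {t0 t : Heis} {j k : ℕ} (hj : j < 2 * m + 1) (hk : k < 2 * m + 1)
    (h1 : BadA m R L t0 t j) (h2 : BadA m R L t0 t k) : j = k := by
  obtain ⟨j', hj', hne, w, hw, hw'⟩ := h1
  obtain ⟨k', hk', hne', u, hu, hu'⟩ := h2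
  have b3 := bound3 hL
  have bR := (two_R_lt (m := m) (R := R)).1
  have bj := bound1 hL hj
  have bk := bound1 hL hk
  have bj1 := bound1 hL hj'
  have bk1 := bound1 hL hk'
  have hR1 : (1 : ℤ) ≤ ((R : ℤ) + 1) ^ 2 := by nlinarith [Nat.cast_nonneg (α := ℤ) R]
  have pj := al_pos m R j
  have pk := al_pos m R k
  have pj1 := al_pos m R j'
  have pk1 := al_pos m R k'
  have bj' : 32 * al m R j ≤ L := by nlinarith
  have bk' : 32 * al m R k ≤ L := by nlinarith
  have bj1' : 32 * al m R j' ≤ L := by nlinarith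
  have bk1' : 32 * al m R k' ≤ L := by nlinarith
  rw [abs_le] at hw hu
  have e1 : w - u = (al m R j' - al m R j) - (al m R k' - al m R k) := by
    apply eq_of_cast_eq (L := L)
    · push_cast at hw' hu' ⊢
      linear_combination hw' - hu'
    · rw [abs_lt]; constructor <;> linarith
  have e2 : (DD m R : ℤ) * ((4 ^ j' + 4 ^ k) - (4 ^ k' + 4 ^ j)) = w - u := by
    rw [e1]; unfold al; ring
  have e3 : (4 : ℤ) ^ j' + 4 ^ k - (4 ^ k' + 4 ^ j) = 0 := by
    have h2 : (0 : ℤ) < DD m R := by exact_mod_cast DD_pos m R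
    by_contra hne0
    have h3 := Int.one_le_abs hne0
    have h4 : |(DD m R : ℤ) * ((4 ^ j' + 4 ^ k) - (4 ^ k' + 4 ^ j))| ≤ 2 * R := by
      rw [e2, abs_le]; constructor <;> linarith
    rw [abs_mul, abs_of_pos h2] at h4
    nlinarith
  exact four_pow (k' := k') (by linarith) hne

lemma BadB_unique {t0 t : Heis} {j k : ℕ} (hj : j < 2 * m + 1) (hk : k < 2 * m + 1)
    (h1 : BadB m R L t0 t j) (h2 : BadB m R L t0 t k) : j = k := by
  obtain ⟨w1, w2, hw1, hw2, hne, hw1', hw2', z, hz, hz'⟩ := h1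
  obtain ⟨u1, u2, hu1, hu2, hne', hu1', hu2', z', hzz, hzz'⟩ := h2
  have b3 := bound3 hL
  obtain ⟨bR, bD⟩ := (two_R_lt (m := m) (R := R))
  have bj := bound1 hL hj
  have bk := bound1 hL hk
  have pj := al_pos m R j
  have pk := al_pos m R k
  have e1 : u1 = w1 := by
    apply eq_of_cast_eq (L := L)
    · rw [hu1', hw1']
    · rw [abs_le] at hw1 hu1
      rw [abs_lt]; constructor <;> linarith
  have e2 : u2 = w2 := by
    apply eq_of_cast_eq (L := L)
    · rw [hu2', hw2']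
    · rw [abs_le] at hw2 hu2
      rw [abs_lt]; constructor <;> linarith
  subst e1 e2
  by_contra hjk
  have hR0 : (0 : ℤ) ≤ R := Nat.cast_nonneg R
  set ω : ℤ := u1 * ((R : ℤ) + 1) - u2 with hω
  have hω0 : ω ≠ 0 := by
    intro h0
    have h3 : u2 = u1 * ((R : ℤ) + 1) := by linarith
    by_cases h4 : u1 = 0
    · apply hne; exact ⟨h4, by rw [h3, h4]; ring⟩
    · have h5 : (1 : ℤ) ≤ |u1| := Int.one_le_abs h4
      have h6 : |u2| = |u1| * ((R : ℤ) + 1) := by
        rw [h3, abs_mul, abs_of_pos (by linarith : (0 : ℤ) < R + 1)]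
      nlinarith
  have hω1 : (1 : ℤ) ≤ |ω| := Int.one_le_abs hω0
  have hω2 : |ω| ≤ ((R : ℤ) + 1) ^ 2 := by
    have h5 : |ω| ≤ |u1| * ((R : ℤ) + 1) + |u2| := by
      rw [hω]
      refine (abs_sub _ _).trans ?_
      rw [abs_mul, abs_of_pos (by linarith : (0 : ℤ) < R + 1)]
    nlinarith
  have hsep := al_sep m R hjk
  have e3 : ω * (al m R j - al m R k) = z - z' := by
    apply eq_of_cast_eq (L := L)
    · push_cast at hz' hzz' ⊢
      linear_combination hz' - hzz'
    · have h7 : |ω * (al m R j - al m R k)| ≤ ((R : ℤ) + 1) ^ 2 * (al m R j + al m R k) := by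
        rw [abs_mul]
        refine mul_le_mul hω2 ?_ (abs_nonneg _) (by positivity)
        rw [abs_le]; constructor <;> linarith
      rw [abs_le] at h7
      rw [abs_lt] at hz hzz ⊢
      constructor <;> linarith
  have h8 : |z - z'| < DD m R := by
    rw [abs_lt] at hz hzz ⊢
    constructor <;> linarith
  rw [← e3, abs_mul] at h8
  nlinarith [abs_nonneg (al m R j - al m R k)]

/-- The choice at one level: a left translation moves `t0` into the set of the level, and every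
other element of `T` is either moved into it as well, or stays away from it. -/
lemma level_choice (T : Finset Heis) (hT : T.card ≤ m) (t0 : Heis) :
    ∃ f : Heis, InW m R L (f * t0) ∧
      ∀ t ∈ T, InW m R L (f * t) ∨ ∀ g, InB R g → ¬ InW m R L (g * (f * t)) := by
  classical
  have b3 := bound3 hL
  obtain ⟨bR, bD⟩ := (two_R_lt (m := m) (R := R))
  have hR0 : (0 : ℤ) ≤ R := Nat.cast_nonneg R
  -- choice of the index
  obtain ⟨j, hj, hjA, hjB⟩ : ∃ j < 2 * m + 1, (∀ t ∈ T, ¬ BadA m R L t0 t j) ∧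
      (∀ t ∈ T, ¬ BadB m R L t0 t j) := by
    by_contra hcon
    push Not at hcon
    have hbad : ∀ j ∈ Finset.range (2 * m + 1), ∃ p : Heis × Bool, p ∈ T ×ˢ (Finset.univ : Finset Bool)
        ∧ ((p.2 = true ∧ BadA m R L t0 p.1 j) ∨ (p.2 = false ∧ BadB m R L t0 p.1 j)) := by
      intro j hj
      rw [Finset.mem_range] at hj
      by_cases h : ∀ t ∈ T, ¬ BadA m R L t0 t j
      · obtain ⟨t, ht, hb⟩ := hcon j hj h
        exact ⟨(t, false), by simp [ht], Or.inr ⟨rfl, hb⟩⟩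
      · push Not at h
        obtain ⟨t, ht, hb⟩ := h
        exact ⟨(t, true), by simp [ht], Or.inl ⟨rfl, hb⟩⟩
    choose! p hp hp' using hbad
    obtain ⟨j, hj, k, hk, hne, heq⟩ := Finset.exists_ne_map_eq_of_card_lt_of_maps_to
      (s := Finset.range (2 * m + 1)) (t := T ×ˢ (Finset.univ : Finset Bool)) (f := p)
      (by rw [Finset.card_product, Finset.card_range, Finset.card_univ, Fintype.card_bool]; omega)
      (fun j hj => hp j hj)
    have h1 := hp' j hj
    have h2 := hp' k hk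
    rw [heq] at h1
    rw [Finset.mem_range] at hj hk
    rcases h1 with ⟨h1, h1'⟩ | ⟨h1, h1'⟩ <;> rcases h2 with ⟨h2, h2'⟩ | ⟨h2, h2'⟩
    · exact hne (BadA_unique hL hj hk h1' h2')
    · rw [h1] at h2; exact absurd h2 (by decide)
    · rw [h1] at h2; exact absurd h2 (by decide)
    · exact hne (BadB_unique hL hj hk h1' h2')
  -- choice of the height
  set ZZ : Finset ℤ := Finset.Ico (-(R : ℤ)) 0 ∪ Finset.Ico (hh m R : ℤ) (hh m R + R) with hZZ
  have hZZcard : ZZ.card ≤ 2 * R := by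
    refine (Finset.card_union_le _ _).trans ?_
    rw [Int.card_Ico, Int.card_Ico]
    omega
  obtain ⟨y, hy, hyY⟩ : ∃ y < hh m R, ∀ t ∈ T, ∀ z ∈ ZZ, ¬ BadY L t0 t y z := by
    by_contra hcon
    push Not at hcon
    have hbad : ∀ y ∈ Finset.range (hh m R), ∃ p : Heis × ℤ, p ∈ T ×ˢ ZZ ∧ BadY L t0 p.1 y p.2 := by
      intro y hy
      rw [Finset.mem_range] at hy
      obtain ⟨t, ht, z, hz, hb⟩ := hcon y hy
      exact ⟨(t, z), Finset.mk_mem_product ht hz, hb⟩
    choose! p hp hp' using hbad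
    obtain ⟨y, hy, y', hy', hne, heq⟩ := Finset.exists_ne_map_eq_of_card_lt_of_maps_to
      (s := Finset.range (hh m R)) (t := T ×ˢ ZZ) (f := p)
      (by
        rw [Finset.card_product, Finset.card_range]
        unfold hh
        have : T.card * ZZ.card ≤ m * (2 * R) := Nat.mul_le_mul hT hZZcard
        have e : m * (2 * R) = 2 * R * m := by ring
        omega)
      (fun j hj => hp j hj)
    have h1 := hp' y hy
    have h2 := hp' y' hy'
    rw [heq] at h1
    rw [Finset.mem_range] at hy hy'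
    apply hne
    have : (y : ℤ) = y' := by
      apply eq_of_cast_eq (L := L)
      · unfold BadY at h1 h2
        push_cast at h1 h2 ⊢
        linear_combination h1 - h2
      · have h3 : (y : ℤ) < hh m R := by exact_mod_cast hy
        have h4 : (y' : ℤ) < hh m R := by exact_mod_cast hy'
        have h5 : (0 : ℤ) ≤ y := Nat.cast_nonneg y
        have h6 : (0 : ℤ) ≤ y' := Nat.cast_nonneg y'
        rw [abs_lt]; constructor <;> linarith
    exact_mod_cast this
  refine ⟨⟨al m R j - t0.a, ((R : ℤ) + 1) * al m R j - t0.b,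
    y - t0.c - (al m R j - t0.a) * t0.b⟩, ⟨j, hj, y, hy, ?_, ?_, ?_⟩, ?_⟩
  · simp only [Heis.mul_a]; congr 1; ring
  · simp only [Heis.mul_b]; congr 1; ring
  · simp only [Heis.mul_c]; congr 1; ring
  intro t ht
  by_contra hcon
  push Not at hcon
  obtain ⟨hnot, g, hg, j', hj', y', hy', h1, h2, h3⟩ := hcon
  obtain ⟨g1, g2, g3, g4⟩ := hg
  simp only [Heis.mul_a, Heis.mul_b, Heis.mul_c] at h1 h2 h3
  have hjj : j' = j := by
    by_contra hne
    refine hjA t ht ⟨j', hj', hne, g.a, g1, ?_⟩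
    push_cast at h1 ⊢
    linear_combination h1
  subst hjj
  have hy0 : (0 : ℤ) ≤ y := Nat.cast_nonneg y
  have hy0' : (0 : ℤ) ≤ y' := Nat.cast_nonneg y'
  have hy1 : (y : ℤ) < hh m R := by exact_mod_cast hy
  have hy1' : (y' : ℤ) < hh m R := by exact_mod_cast hy'
  have ea : (g.a : ZMod L) = ((-(t.a - t0.a) : ℤ) : ZMod L) := by
    push_cast at h1 ⊢
    linear_combination h1
  have eb : (g.b : ZMod L) = ((-(t.b - t0.b) : ℤ) : ZMod L) := by
    push_cast at h2 ⊢
    linear_combination h2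
  rw [abs_le] at g3
  by_cases hzero : g.a = 0 ∧ g.b = 0
  · obtain ⟨ga, gb⟩ := hzero
    rw [ga] at ea; rw [gb] at eb
    have hz : ((y + (t.c - t0.c) : ℤ) : ZMod L) = ((y' - g.c : ℤ) : ZMod L) := by
      rw [ga] at h3
      push_cast at h3 ea eb ⊢
      linear_combination h3 - (al m R j' - t0.a : ZMod L) * eb
    by_cases hin : 0 ≤ (y' : ℤ) - g.c ∧ (y' : ℤ) - g.c < hh m R
    · apply hnot
      refine ⟨j', hj', ((y' : ℤ) - g.c).toNat, by omega, ?_, ?_, ?_⟩
      · simp only [Heis.mul_a]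
        push_cast at ea ⊢
        linear_combination ea
      · simp only [Heis.mul_b]
        push_cast at eb ⊢
        linear_combination eb
      · rw [Int.toNat_of_nonneg hin.1]
        simp only [Heis.mul_c]
        push_cast at hz ea eb ⊢
        linear_combination hz + (al m R j' - t0.a : ZMod L) * eb
    · refine hyY t ht ((y' : ℤ) - g.c) ?_ hz
      rw [hZZ, Finset.mem_union, Finset.mem_Ico, Finset.mem_Ico]
      omega
  · refine hjB t ht ⟨g.a, g.b, g1, g2, hzero, ea, eb, (y' : ℤ) - y - g.c, ?_, ?_⟩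
    · rw [abs_lt]; constructor <;> linarith
    · push_cast at h3 ea eb ⊢
      linear_combination h3 - (g.a + (al m R j' - t0.a) : ZMod L) * eb

end level


/-! ### The sequence of levels -/

/-- the pairs `(R m, Q m)` -/
def RQ (K : ℕ) : ℕ → ℕ × ℕ
  | 0 => (K + 1, 1)
  | m + 1 =>
    (8 * ((m + 2) * ((RQ K m).2 * ((RQ K m).2 * XX m (RQ K m).1 + 1)) + (RQ K m).1) ^ 2
      + 4 * ((m + 2) * ((RQ K m).2 * ((RQ K m).2 * XX m (RQ K m).1 + 1)) + (RQ K m).1),
      (RQ K m).2 * ((RQ K m).2 * XX m (RQ K m).1 + 1))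

/-- the sizes of the boxes -/
def Rs (K m : ℕ) : ℕ := (RQ K m).1
/-- the products of the moduli -/
def Qs (K m : ℕ) : ℕ := (RQ K m).2
/-- the moduli -/
def Ls (K m : ℕ) : ℕ := Qs K m * XX m (Rs K m) + 1

lemma Qs_zero (K : ℕ) : Qs K 0 = 1 := rfl
lemma Rs_zero (K : ℕ) : Rs K 0 = K + 1 := rfl
lemma Qs_succ (K m : ℕ) : Qs K (m + 1) = Qs K m * Ls K m := rfl
lemma Rs_succ (K m : ℕ) : Rs K (m + 1) = 8 * ((m + 2) * Qs K (m + 1) + Rs K m) ^ 2
    + 4 * ((m + 2) * Qs K (m + 1) + Rs K m) := rfl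

lemma Qs_pos (K m : ℕ) : 0 < Qs K m := by
  induction m with
  | zero => rw [Qs_zero]; norm_num
  | succ m ih => rw [Qs_succ]; unfold Ls; positivity

lemma Ls_ge (K m : ℕ) : XX m (Rs K m) ≤ Ls K m := by
  unfold Ls
  have := Qs_pos K m
  nlinarith [Nat.zero_le (XX m (Rs K m))]

lemma Rs_mono_succ (K m : ℕ) : Rs K m ≤ Rs K (m + 1) := by
  rw [Rs_succ]; nlinarith [Nat.zero_le (((m + 2) * Qs K (m + 1) + Rs K m) ^ 2), Nat.zero_le ((m + 2) * Qs K (m + 1))]

lemma Rs_mono (K : ℕ) : Monotone (Rs K) := monotone_nat_of_le_succ (Rs_mono_succ K)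

lemma two_Rs_lt_Qs (K m : ℕ) : 2 * Rs K m < Qs K (m + 1) := by
  rw [Qs_succ]
  have h1 := Qs_pos K m
  have h2 := Ls_ge K m
  have h3 : 2 * Rs K m < XX m (Rs K m) := by
    have h4 := (two_R_lt (m := m) (R := Rs K m)).1
    have h4' : 2 * Rs K m < DD m (Rs K m) := by exact_mod_cast h4
    refine h4'.trans_le ?_
    unfold XX
    have h5 : 0 < 8 * (Rs K m + 1) ^ 2 := by positivity
    have h6 : 0 < 4 ^ (2 * m + 1) := by positivity
    calc DD m (Rs K m) = 1 * DD m (Rs K m) * 1 := by ring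
      _ ≤ 8 * (Rs K m + 1) ^ 2 * DD m (Rs K m) * 4 ^ (2 * m + 1) := by gcongr <;> omega
  nlinarith

lemma Qs_dvd (K : ℕ) {m n : ℕ} (h : m ≤ n) : Qs K m ∣ Qs K n := by
  induction n, h using Nat.le_induction with
  | base => exact dvd_rfl
  | succ n _ ih => rw [Qs_succ]; exact ih.mul_right _

/-- the set and the box of level `m` -/
def W (K m : ℕ) : Set Heis := {x | InW m (Rs K m) (Ls K m) x}
def B (K m : ℕ) : Set Heis := {x | InB (Rs K m) x}

/-- coordinatewise congruence -/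
def Cong (N : ℕ) (x y : Heis) : Prop :=
  (N : ℤ) ∣ x.a - y.a ∧ (N : ℤ) ∣ x.b - y.b ∧ (N : ℤ) ∣ x.c - y.c

lemma Cong.mul_right {N : ℕ} {x y : Heis} (h : Cong N x y) (t : Heis) : Cong N (x * t) (y * t) := by
  obtain ⟨⟨u, hu⟩, ⟨v, hv⟩, ⟨w, hw⟩⟩ := h
  refine ⟨⟨u, ?_⟩, ⟨v, ?_⟩, ⟨w + u * t.b, ?_⟩⟩
  · simp only [Heis.mul_a]; linear_combination hu
  · simp only [Heis.mul_b]; linear_combination hv
  · simp only [Heis.mul_c]; linear_combination hw + t.b * hu

lemma Cong.mul_left {N : ℕ} {x y : Heis} (h : Cong N x y) (t : Heis) : Cong N (t * x) (t * y) := by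
  obtain ⟨⟨u, hu⟩, ⟨v, hv⟩, ⟨w, hw⟩⟩ := h
  refine ⟨⟨u, ?_⟩, ⟨v, ?_⟩, ⟨w + t.a * v, ?_⟩⟩
  · simp only [Heis.mul_a]; linear_combination hu
  · simp only [Heis.mul_b]; linear_combination hv
  · simp only [Heis.mul_c]; linear_combination hw + t.a * hv

lemma Cong.dvd {N M : ℕ} (h : N ∣ M) {x y : Heis} (hxy : Cong M x y) : Cong N x y := by
  have h' : (N : ℤ) ∣ M := by exact_mod_cast h
  exact ⟨h'.trans hxy.1, h'.trans hxy.2.1, h'.trans hxy.2.2⟩

lemma Cong.trans {N : ℕ} {x y z : Heis} (h : Cong N x y) (h' : Cong N y z) : Cong N x z := by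
  refine ⟨?_, ?_, ?_⟩
  · have := dvd_add h.1 h'.1; rwa [show x.a - y.a + (y.a - z.a) = x.a - z.a by ring] at this
  · have := dvd_add h.2.1 h'.2.1; rwa [show x.b - y.b + (y.b - z.b) = x.b - z.b by ring] at this
  · have := dvd_add h.2.2 h'.2.2; rwa [show x.c - y.c + (y.c - z.c) = x.c - z.c by ring] at this

lemma Cong.symm {N : ℕ} {x y : Heis} (h : Cong N x y) : Cong N y x := by
  refine ⟨?_, ?_, ?_⟩
  · rw [← dvd_neg, neg_sub]; exact h.1
  · rw [← dvd_neg, neg_sub]; exact h.2.1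
  · rw [← dvd_neg, neg_sub]; exact h.2.2

lemma InW_congr {m R L : ℕ} {x y : Heis} (h : Cong L x y) (hx : InW m R L x) : InW m R L y := by
  have key : ∀ {u v : ℤ}, (L : ℤ) ∣ u - v → (v : ZMod L) = (u : ZMod L) := by
    intro u v huv
    have := (ZMod.intCast_zmod_eq_zero_iff_dvd (u - v) L).2 huv
    push_cast at this
    linear_combination -this
  obtain ⟨j, hj, z, hz, h1, h2, h3⟩ := hx
  exact ⟨j, hj, z, hz, (key h.1).trans h1, (key h.2.1).trans h2, (key h.2.2).trans h3⟩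

/-- the Chinese remainder theorem for the Heisenberg group -/
lemma crt {N M : ℕ} (h : Nat.Coprime N M) (x y : Heis) : ∃ z : Heis, Cong N z x ∧ Cong M z y := by
  have h' : IsCoprime (N : ℤ) (M : ℤ) := Nat.isCoprime_iff_coprime.2 h
  obtain ⟨u, v, huv⟩ := h'
  refine ⟨⟨x.a + N * u * (y.a - x.a), x.b + N * u * (y.b - x.b), x.c + N * u * (y.c - x.c)⟩,
    ⟨⟨u * (y.a - x.a), ?_⟩, ⟨u * (y.b - x.b), ?_⟩, ⟨u * (y.c - x.c), ?_⟩⟩,
    ⟨⟨-v * (y.a - x.a), ?_⟩, ⟨-v * (y.b - x.b), ?_⟩, ⟨-v * (y.c - x.c), ?_⟩⟩⟩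
  · ring
  · ring
  · ring
  · simp only; linear_combination (y.a - x.a) * huv
  · simp only; linear_combination (y.b - x.b) * huv
  · simp only; linear_combination (y.c - x.c) * huv

lemma coprime_QL (K m : ℕ) : Nat.Coprime (Qs K m) (Ls K m) := by
  unfold Ls
  rw [Nat.coprime_mul_left_add_right]
  exact Nat.coprime_one_right _

/-- The assignment of levels `n, ..., n + k - 1` to the elements of `S ⊆ T`. -/
lemma assign (K n : ℕ) (T : Finset Heis) (hT : T.card ≤ n) (k : ℕ) :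
    ∀ S ⊆ T, S.card ≤ k → ∃ f : Heis, ∀ f', Cong (Qs K (n + k)) f' f →
      ∀ t ∈ S, ∃ i < k, f' * t ∈ W K (n + i) ∧
        ∀ i', i < i' → i' < k → ∀ g ∈ B K (n + i'), g * (f' * t) ∉ W K (n + i') := by
  classical
  induction k with
  | zero =>
    intro S _ hS
    refine ⟨1, fun f' _ t ht => ?_⟩
    have : S = ∅ := Finset.card_eq_zero.1 (by omega)
    rw [this] at ht
    exact absurd ht (Finset.notMem_empty t)
  | succ k ih =>
    intro S hS hcard
    rcases S.eq_empty_or_nonempty with rfl | ⟨t0, ht0⟩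
    · exact ⟨1, fun f' _ t ht => absurd ht (Finset.notMem_empty t)⟩
    obtain ⟨f1, hf1, hf1'⟩ := level_choice (m := n + k) (R := Rs K (n + k)) (L := Ls K (n + k))
      (Ls_ge K (n + k)) T (by omega) t0
    have hcard' : (S.filter (fun t => ¬ InW (n + k) (Rs K (n + k)) (Ls K (n + k)) (f1 * t))).card ≤ k := by
      have hlt : (S.filter (fun t => ¬ InW (n + k) (Rs K (n + k)) (Ls K (n + k)) (f1 * t))).card < S.card := by
        apply Finset.card_lt_card
        rw [Finset.filter_ssubset]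
        exact ⟨t0, ht0, by simpa using hf1⟩
      omega
    obtain ⟨f2, hf2⟩ := ih _ ((Finset.filter_subset _ _).trans hS) hcard'
    obtain ⟨f, hfa, hfb⟩ := crt (coprime_QL K (n + k)) f2 f1
    refine ⟨f, fun f' hf' t ht => ?_⟩
    have hQ : Cong (Qs K (n + k)) f' f2 := (hf'.dvd (Qs_dvd K (by omega))).trans hfa
    have hLdvd : Ls K (n + k) ∣ Qs K (n + (k + 1)) := by
      rw [show n + (k + 1) = (n + k) + 1 by ring, Qs_succ]; exact dvd_mul_left _ _
    have hLc : Cong (Ls K (n + k)) f' f1 := (hf'.dvd hLdvd).trans hfb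
    by_cases hin : InW (n + k) (Rs K (n + k)) (Ls K (n + k)) (f1 * t)
    · refine ⟨k, by omega, ?_, fun i' h1 h2 => absurd h1 (by omega)⟩
      exact InW_congr (hLc.symm.mul_right t) hin
    · obtain ⟨i, hi, hi1, hi2⟩ := hf2 f' hQ t (Finset.mem_filter.2 ⟨ht, hin⟩)
      refine ⟨i, by omega, hi1, fun i' h1 h2 => ?_⟩
      rcases Nat.lt_or_ge i' k with h3 | h3
      · exact hi2 i' h1 h3
      · have h4 : i' = k := by omega
        subst h4
        intro g hg hgin
        rcases hf1' t (hS ht) with h5 | h5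
        · exact hin h5
        · exact h5 g hg (InW_congr ((hLc.mul_right t).mul_left g) hgin)


/-! ### The coloring with finitely many levels -/

/-- the greedy set built from the `k` levels `m, m + 1, ..., m + k - 1`, higher levels first -/
def Y (K : ℕ) : ℕ → ℕ → Set Heis
  | 0, _ => ∅
  | k + 1, m => Y K k (m + 1) ∪ {x | x ∈ W K m ∧ ∀ g ∈ B K m, g * x ∉ Y K k (m + 1)}

lemma B_mono (K : ℕ) {m n : ℕ} (h : m ≤ n) : B K m ⊆ B K n := fun _ hx => InB.mono (Rs_mono K h) hx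

lemma B_inv {K m : ℕ} {g : Heis} (hg : g ∈ B K m) : g⁻¹ ∈ B K m := InB.inv hg

lemma Y_sep (K : ℕ) : ∀ (k m : ℕ) (x g : Heis), x ∈ Y K k m → g ∈ B K m → g * x ∈ Y K k m →
    g.a = 0 ∧ g.b = 0 := by
  intro k
  induction k with
  | zero => intro m x g hx; exact absurd hx (notMem_empty x)
  | succ k ih =>
    intro m x g hx hg hgx
    rcases hx with hx | ⟨hx, hx'⟩ <;> rcases hgx with hgx | ⟨hgx, hgx'⟩
    · exact ih (m + 1) x g hx (B_mono K (Nat.le_succ m) hg) hgx
    · exfalso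
      refine hgx' g⁻¹ (B_inv hg) ?_
      rwa [inv_mul_cancel_left]
    · exact absurd hgx (hx' g hg)
    · exact InW_sep (Ls_ge K m) hx hg hgx

lemma Y_mono (K : ℕ) (k m j : ℕ) : Y K k (m + j) ⊆ Y K (k + j) m := by
  induction j generalizing m with
  | zero => exact subset_rfl
  | succ j ih =>
    intro x hx
    left
    have := ih (m + 1)
    rw [show m + 1 + j = m + (j + 1) by ring] at this
    exact this hx

lemma Y_avoid (K : ℕ) (k j : ℕ) : ∀ (m : ℕ) (x : Heis) (_ : ∀ i < j, x ∉ W K (m + i))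
    (_ : x ∉ Y K k (m + j)), x ∉ Y K (k + j) m := by
  induction j with
  | zero => intro m x _ h; exact h
  | succ j ih =>
    intro m x h1 h2 h3
    rcases h3 with h3 | ⟨h3, _⟩
    · refine ih (m + 1) x (fun i hi => ?_) ?_ h3
      · have := h1 (i + 1) (by omega)
        rwa [show m + 1 + i = m + (i + 1) by ring]
      · rwa [show m + 1 + j = m + (j + 1) by ring]
    · exact h1 0 (by omega) h3

/-- acceptance of a point -/
lemma Y_accept (K k n i j : ℕ) (x : Heis) (hx : x ∈ W K (n + i))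
    (h1 : ∀ i', i < i' → i' < i + 1 + j → ∀ g ∈ B K (n + i'), g * x ∉ W K (n + i'))
    (h2 : ∀ g ∈ B K (n + i), g * x ∉ Y K k (n + (i + 1 + j))) :
    x ∈ Y K (k + j + 1 + (n + i)) 0 := by
  have h3 : x ∈ Y K (k + j + 1) (n + i) := by
    right
    refine ⟨hx, fun g hg => ?_⟩
    refine Y_avoid K k j (n + i + 1) (g * x) (fun i' hi' => ?_) ?_
    · have := h1 (i + 1 + i') (by omega) (by omega) g (B_mono K (by omega) hg)
      rwa [show n + i + 1 + i' = n + (i + 1 + i') by ring]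
    · rw [show n + i + 1 + j = n + (i + 1 + j) by ring]
      exact h2 g hg
  have h4 := Y_mono K (k + j + 1) 0 (n + i)
  rw [Nat.zero_add] at h4
  exact h4 h3

/-- the absorption property of the boxes -/
lemma absorb (K b : ℕ) (g g' f f' : Heis) (hg : g ∈ B K b) (hg' : g' ∈ B K b)
    (S : ℤ) (hS : S = (b + 2) * Qs K (b + 1))
    (hf : |f.a| ≤ S ∧ |f.b| ≤ S ∧ |f.c| ≤ S) (hf' : |f'.a| ≤ S ∧ |f'.b| ≤ S ∧ |f'.c| ≤ S) :
    (g * f) * (g' * f')⁻¹ ∈ B K (b + 1) := by
  obtain ⟨g1, g2, g3, -⟩ := hg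
  obtain ⟨g1', g2', g3', -⟩ := hg'
  obtain ⟨f1, f2, f3⟩ := hf
  obtain ⟨f1', f2', f3'⟩ := hf'
  set R : ℤ := (Rs K b : ℤ) with hR
  have hR0 : 0 ≤ R := Nat.cast_nonneg _
  have hS0 : 0 ≤ S := le_trans (abs_nonneg _) f1
  have hRS : (Rs K (b + 1) : ℤ) = 8 * (S + R) ^ 2 + 4 * (S + R) := by
    rw [Rs_succ, hS, hR]; push_cast; ring
  have key : ∀ {u v : ℤ}, |u| ≤ R → |v| ≤ S → |u + v| ≤ S + R := by
    intro u v hu hv
    exact (abs_add_le _ _).trans (by linarith)
  have a1 : |(g * f).a| ≤ S + R := key g1 f1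
  have a2 : |(g * f).b| ≤ S + R := key g2 f2
  have a1' : |(g' * f').a| ≤ S + R := key g1' f1'
  have a2' : |(g' * f').b| ≤ S + R := key g2' f2'
  have a3 : |(g * f).c| ≤ (S + R) + R * S := by
    simp only [Heis.mul_c]
    refine (abs_add_le _ _).trans ?_
    have : |g.a * f.b| ≤ R * S := by
      rw [abs_mul]; exact mul_le_mul g1 f2 (abs_nonneg _) hR0
    have := key g3 f3
    linarith
  have a3' : |(g' * f').c| ≤ (S + R) + R * S := by
    simp only [Heis.mul_c]
    refine (abs_add_le _ _).trans ?_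
    have : |g'.a * f'.b| ≤ R * S := by
      rw [abs_mul]; exact mul_le_mul g1' f2' (abs_nonneg _) hR0
    have := key g3' f3'
    linarith
  set x := g * f
  set y := g' * f'
  have pr : ∀ {u v : ℤ}, |u| ≤ S + R → |v| ≤ S + R → |u * v| ≤ (S + R) ^ 2 := by
    intro u v hu hv
    rw [abs_mul, sq]; exact mul_le_mul hu hv (abs_nonneg _) (by linarith)
  have q1 := pr a1' a2'
  have q2 := pr a1 a2'
  have q3 := pr a1 a2
  have q4 := pr a1' a2
  have hSR : R * S ≤ (S + R) ^ 2 := by nlinarith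
  have hsq : 0 ≤ (S + R) ^ 2 := sq_nonneg _
  show InB (Rs K (b + 1)) (x * y⁻¹)
  refine ⟨?_, ?_, ?_, ?_⟩
  · rw [hRS]; simp only [Heis.mul_a, Heis.inv_a]
    rw [abs_le] at *
    constructor <;> linarith
  · rw [hRS]; simp only [Heis.mul_b, Heis.inv_b]
    rw [abs_le] at *
    constructor <;> linarith
  · rw [hRS]; simp only [Heis.mul_c, Heis.inv_c, Heis.inv_b]
    rw [abs_le] at *
    constructor <;> linarith
  · rw [hRS]; simp only [Heis.mul_c, Heis.inv_c, Heis.inv_b, Heis.mul_a, Heis.inv_a, Heis.mul_b]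
    rw [show (x.a + -y.a) * (x.b + -y.b) - (x.c + (-y.c + y.a * y.b) + x.a * -y.b)
      = x.a * x.b - y.a * x.b - x.c + y.c by ring]
    rw [abs_le] at *
    constructor <;> linarith


/-- the finite box of translations -/
def F (S : ℤ) : Set Heis := {f | |f.a| ≤ S ∧ |f.b| ≤ S ∧ |f.c| ≤ S}

lemma F_finite (S : ℤ) : (F S).Finite := by
  have h1 : (Icc (-S) S ×ˢ (Icc (-S) S ×ˢ Icc (-S) S) : Set (ℤ × ℤ × ℤ)).Finite :=
    (finite_Icc _ _).prod ((finite_Icc _ _).prod (finite_Icc _ _))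
  have h2 : Function.Injective (fun f : Heis => (f.a, f.b, f.c)) := by
    intro x y hxy
    simp only [Prod.mk.injEq] at hxy
    exact Heis.ext hxy.1 hxy.2.1 hxy.2.2
  refine (h1.preimage h2.injOn).subset ?_
  rintro f ⟨f1, f2, f3⟩
  exact ⟨abs_le.1 f1, abs_le.1 f2, abs_le.1 f3⟩

lemma main_finite (K n : ℕ) (hn : 1 ≤ n) : ∃ F : Set Heis, F.Finite ∧ ∀ k, ∀ T : Finset Heis,
    T.card ≤ n → ∃ f ∈ F, ∀ t ∈ T, f * t ∈ Y K (k + 2 * n) 0 := by
  classical
  obtain ⟨b, hb⟩ : ∃ b, 2 * n = b + 1 := ⟨2 * n - 1, by omega⟩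
  set S : ℤ := (b + 2) * Qs K (b + 1) with hS
  refine ⟨F S, F_finite S, fun k T hT => ?_⟩
  obtain ⟨f0, hf0⟩ := assign K n T hT n T subset_rfl hT
  have hQpos : 0 < Qs K (b + 1) := Qs_pos K _
  set Q : ℤ := (Qs K (b + 1) : ℤ) with hQ
  have hQ0 : 0 < Q := by rw [hQ]; exact_mod_cast hQpos
  set fi : ℕ → Heis := fun i => ⟨f0.a % Q + i * Q, f0.b % Q, f0.c % Q⟩ with hfi
  have hcong : ∀ i, Cong (Qs K (n + n)) (fi i) f0 := by
    intro i
    rw [show n + n = b + 1 by omega]
    refine ⟨⟨i - f0.a / Q, ?_⟩, ⟨-(f0.b / Q), ?_⟩, ⟨-(f0.c / Q), ?_⟩⟩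
    · simp only [hfi]; have := Int.emod_add_mul_ediv f0.a Q; linear_combination this
    · simp only [hfi]; have := Int.emod_add_mul_ediv f0.b Q; linear_combination this
    · simp only [hfi]; have := Int.emod_add_mul_ediv f0.c Q; linear_combination this
  have hfF : ∀ i ∈ Finset.range (n + 1), fi i ∈ F S := by
    intro i hi
    rw [Finset.mem_range] at hi
    have hib : (i : ℤ) + 1 ≤ b + 2 := by
      have : i + 1 ≤ b + 2 := by omega
      exact_mod_cast this
    have h1 : ((i : ℤ) + 1) * Q ≤ (b + 2) * Q := by nlinarith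
    have h2 : (1 : ℤ) * Q ≤ ((i : ℤ) + 1) * Q := by nlinarith [Nat.cast_nonneg (α := ℤ) i]
    have h3 : (0 : ℤ) ≤ i * Q := by positivity
    have r1 := Int.emod_nonneg f0.a hQ0.ne'
    have r2 := Int.emod_lt_of_pos f0.a hQ0
    have r3 := Int.emod_nonneg f0.b hQ0.ne'
    have r4 := Int.emod_lt_of_pos f0.b hQ0
    have r5 := Int.emod_nonneg f0.c hQ0.ne'
    have r6 := Int.emod_lt_of_pos f0.c hQ0
    refine ⟨?_, ?_, ?_⟩
    · simp only [hfi]; rw [abs_le, hS]; constructor <;> linarith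
    · simp only [hfi]; rw [abs_le, hS]; constructor <;> linarith
    · simp only [hfi]; rw [abs_le, hS]; constructor <;> linarith
  by_contra hcon
  push Not at hcon
  have hbad : ∀ i ∈ Finset.range (n + 1), ∃ t ∈ T, ∃ g ∈ B K b, g * (fi i * t) ∈ Y K k (b + 1) := by
    intro i hi
    obtain ⟨t, ht, hnot⟩ := hcon (fi i) (hfF i hi)
    refine ⟨t, ht, ?_⟩
    by_contra hcon2
    push Not at hcon2
    apply hnot
    obtain ⟨l, hl, hl1, hl2⟩ := hf0 (fi i) (hcong i) t ht
    obtain ⟨j, hj⟩ : ∃ j, n = l + 1 + j := ⟨n - (l + 1), by omega⟩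
    have := Y_accept K k n l j (fi i * t) hl1 (fun i' h1 h2 => hl2 i' h1 (by omega))
      (fun g hg => by
        rw [show n + (l + 1 + j) = b + 1 by omega]
        exact hcon2 g (B_mono K (by omega) hg))
    rwa [show k + j + 1 + (n + l) = k + 2 * n by omega] at this
  choose! τ hτ γ hγ hY using hbad
  obtain ⟨i, hi, j, hj, hne, heq⟩ := Finset.exists_ne_map_eq_of_card_lt_of_maps_to
    (s := Finset.range (n + 1)) (t := T) (f := τ) (by rw [Finset.card_range]; omega) (fun i hi => hτ i hi)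
  have habs := absorb K b (γ i) (γ j) (fi i) (fi j) (hγ i hi) (hγ j hj) S hS (hfF i hi) (hfF j hj)
  have hYi := hY i hi
  have hYj := hY j hj
  rw [← heq] at hYj
  have e1 : (γ i * fi i) * (γ j * fi j)⁻¹ * (γ j * (fi j * τ i)) = γ i * (fi i * τ i) := by group
  rw [← e1] at hYi
  obtain ⟨ha, -⟩ := Y_sep K k (b + 1) _ _ hYj habs hYi
  simp only [Heis.mul_a, Heis.inv_a, hfi] at ha
  have hRQ := two_Rs_lt_Qs K b
  have hRQ' : 2 * (Rs K b : ℤ) < Q := by rw [hQ]; exact_mod_cast hRQ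
  have g1 := (hγ i hi).1
  have g2 := (hγ j hj).1
  rw [abs_le] at g1 g2
  have e2 : ((i : ℤ) - j) * Q = (γ j).a - (γ i).a := by linarith
  have hij : (i : ℤ) - j ≠ 0 := by
    intro h
    apply hne
    have : (i : ℤ) = j := by linarith
    exact_mod_cast this
  have h5 := Int.one_le_abs hij
  have h6 : |((i : ℤ) - j) * Q| ≤ 2 * Rs K b := by
    rw [e2, abs_le]; constructor <;> linarith
  rw [abs_mul, abs_of_pos hQ0] at h6
  nlinarith

/-- The combinatorial core: a completely syndetic set `U` of the Heisenberg group which is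
disjoint from its translates by `(i, 0, 0)`, `1 ≤ |i| ≤ K`. -/
theorem exists_set (K : ℕ) : ∃ U : Set Heis,
    (∀ x ∈ U, ∀ i : ℤ, i ≠ 0 → |i| ≤ K → (⟨i, 0, 0⟩ : Heis) * x ∉ U) ∧
    (∀ n : ℕ, ∃ F : Set Heis, F.Finite ∧ ∀ T : Finset Heis, T.card ≤ n → ∃ f ∈ F, ∀ t ∈ T, f * t ∈ U) := by
  refine ⟨{x | ∀ᶠ M in (hyperfilter ℕ : Filter ℕ), x ∈ Y K M 0}, ?_, ?_⟩
  · intro x hx i hi hiK hx'
    obtain ⟨M, h1, h2⟩ := (hx.and hx').exists
    have hB : (⟨i, 0, 0⟩ : Heis) ∈ B K 0 := by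
      refine ⟨?_, ?_, ?_, ?_⟩
      · simp only [Rs_zero]; push_cast; linarith
      · simp only [abs_zero]; positivity
      · simp only [abs_zero]; positivity
      · simp only [mul_zero, sub_zero, abs_zero]; positivity
    exact hi (Y_sep K M 0 x _ h1 hB h2).1
  · intro n
    obtain ⟨F, hF, hF'⟩ := main_finite K (n + 1) (by omega)
    refine ⟨F, hF, fun T hT => ?_⟩
    have h1 : ∀ᶠ M in (hyperfilter ℕ : Filter ℕ), ∃ f ∈ F, ∀ t ∈ T, f * t ∈ Y K M 0 := by
      have h2 : ∀ᶠ M in (atTop : Filter ℕ), ∃ f ∈ F, ∀ t ∈ T, f * t ∈ Y K M 0 := by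
        filter_upwards [eventually_ge_atTop (2 * (n + 1))] with M hM
        obtain ⟨f, hf, hf'⟩ := hF' (M - 2 * (n + 1)) T (by omega)
        refine ⟨f, hf, ?_⟩
        rwa [Nat.sub_add_cancel hM] at hf'
      exact Nat.hyperfilter_le_atTop h2
    have h3 : ∃ f ∈ F, ∀ᶠ M in (hyperfilter ℕ : Filter ℕ), ∀ t ∈ T, f * t ∈ Y K M 0 := by
      by_contra hcon
      have h4 : ∀ᶠ M in (hyperfilter ℕ : Filter ℕ), ∀ f ∈ F, ¬ ∀ t ∈ T, f * t ∈ Y K M 0 := by
        rw [Filter.eventually_all_finite hF]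
        intro f hf
        exact Ultrafilter.eventually_not.2 (fun h => hcon ⟨f, hf, h⟩)
      obtain ⟨M, ⟨f, hf, h5⟩, h6⟩ := (h1.and h4).exists
      exact h6 f hf h5
    obtain ⟨f, hf, h4⟩ := h3
    refine ⟨f, hf, fun t ht => ?_⟩
    exact h4.mono fun M hM => hM t ht


/-! ### The main theorem -/

instance : Countable Heis := by
  have h2 : Function.Injective (fun f : Heis => (f.a, f.b, f.c)) := by
    intro x y hxy
    simp only [Prod.mk.injEq] at hxy
    exact Heis.ext hxy.1 hxy.2.1 hxy.2.2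
  exact h2.countable

/-- the projection to the abelianisation -/
def proj : Heis →* Multiplicative (ℤ × ℤ) where
  toFun x := Multiplicative.ofAdd (x.a, x.b)
  map_one' := rfl
  map_mul' _ _ := rfl

lemma nilpotent : Group.IsNilpotent Heis := by
  refine Subgroup.isNilpotent_of_ker_le_center proj ?_
  intro x hx
  rw [MonoidHom.mem_ker] at hx
  have hx' : (x.a, x.b) = ((0, 0) : ℤ × ℤ) := hx
  simp only [Prod.mk.injEq] at hx'
  rw [Subgroup.mem_center_iff]
  intro g
  ext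
  · simp [hx'.1]
  · simp [hx'.2]
  · simp [hx'.1, hx'.2]; ring

lemma pow_a (n : ℕ) : (⟨1, 0, 0⟩ : Heis) ^ n = ⟨n, 0, 0⟩ := by
  induction n with
  | zero => rfl
  | succ n ih => rw [pow_succ, ih]; ext <;> simp

lemma pow_b (n : ℕ) : (⟨0, 1, 0⟩ : Heis) ^ n = ⟨0, n, 0⟩ := by
  induction n with
  | zero => rfl
  | succ n ih => rw [pow_succ, ih]; ext <;> simp

lemma not_virtually_abelian (H : Subgroup Heis) (hH : H.FiniteIndex) :
    ∃ x ∈ H, ∃ y ∈ H, x * y ≠ y * x := by
  obtain ⟨n, hn, -, hn'⟩ := Subgroup.exists_pow_mem_of_index_ne_zero hH.index_ne_zero (⟨1, 0, 0⟩ : Heis)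
  obtain ⟨m, hm, -, hm'⟩ := Subgroup.exists_pow_mem_of_index_ne_zero hH.index_ne_zero (⟨0, 1, 0⟩ : Heis)
  rw [pow_a] at hn'
  rw [pow_b] at hm'
  refine ⟨_, hn', _, hm', fun h => ?_⟩
  have := congrArg Heis.c h
  simp only [Heis.mul_c] at this
  have h1 : ((n : ℤ) * m) = 0 := by linarith
  rcases mul_eq_zero.1 h1 with h2 | h2
  · have : n = 0 := by exact_mod_cast h2
    omega
  · have : m = 0 := by exact_mod_cast h2
    omega

lemma exists_many (K : ℕ) : ∃ R : ℕ → Set (Ultrafilter Heis),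
    (∀ i, IsMinimalClosedRightIdeal (R i)) ∧ ∀ i ≤ K, ∀ j ≤ K, R i = R j → i = j := by
  obtain ⟨U, hU, hU'⟩ := exists_set K
  obtain ⟨R₀, hR₀, hR₀U⟩ := exists_ideal U hU'
  obtain ⟨R, hR, hsub⟩ := exists_minimal hR₀
  refine ⟨fun i => trans (⟨i, 0, 0⟩ : Heis) R, fun i => trans_minimal _ hR, ?_⟩
  intro i hi j hj hij
  by_contra hne
  obtain ⟨r, hr⟩ := hR.1.1
  have h1 : (pure (⟨i, 0, 0⟩ : Heis) : Ultrafilter Heis) * r ∈ trans (⟨i, 0, 0⟩ : Heis) R := by
    show (pure (⟨i, 0, 0⟩ : Heis)⁻¹ : Ultrafilter Heis) * (pure _ * r) ∈ R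
    rw [pure_mul_pure_mul, inv_mul_cancel, pure_one_mul]; exact hr
  have hij' : trans (⟨i, 0, 0⟩ : Heis) R = trans (⟨j, 0, 0⟩ : Heis) R := hij
  rw [hij'] at h1
  have h2 : (pure (⟨j, 0, 0⟩ : Heis)⁻¹ : Ultrafilter Heis) * (pure (⟨i, 0, 0⟩ : Heis) * r) ∈ R := h1
  rw [pure_mul_pure_mul] at h2
  have h3 := hR₀U _ (hsub h2)
  have h4 := hR₀U _ (hsub hr)
  rw [mem_pure_mul_iff] at h3
  obtain ⟨x, hx1, hx2⟩ := Ultrafilter.nonempty_of_mem (Filter.inter_mem h3 h4)
  have e : (⟨j, 0, 0⟩ : Heis)⁻¹ * ⟨i, 0, 0⟩ = ⟨(i : ℤ) - j, 0, 0⟩ := by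
    ext <;> simp; ring
  have h5 : (⟨(i : ℤ) - j, 0, 0⟩ : Heis) * x ∈ U := by
    rw [← e]; exact hx1
  refine hU x hx2 ((i : ℤ) - j) ?_ ?_ h5
  · intro h; apply hne
    have : (i : ℤ) = j := by linarith
    exact_mod_cast this
  · have hi' : (i : ℤ) ≤ K := by exact_mod_cast hi
    have hj' : (j : ℤ) ≤ K := by exact_mod_cast hj
    rw [abs_le]; constructor <;> linarith [Nat.cast_nonneg (α := ℤ) i, Nat.cast_nonneg (α := ℤ) j]

/-- The discrete Heisenberg group is a countable nilpotent group which is not virtually abelian,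
and the semigroup of ultrafilters on it has infinitely many minimal closed right ideals. -/
theorem result :
    Countable Heis ∧ Group.IsNilpotent Heis ∧
    (∀ H : Subgroup Heis, H.FiniteIndex → ∃ x ∈ H, ∃ y ∈ H, x * y ≠ y * x) ∧
    {R : Set (Ultrafilter Heis) | IsMinimalClosedRightIdeal R}.Infinite := by
  refine ⟨inferInstance, nilpotent, not_virtually_abelian, fun hfin => ?_⟩
  obtain ⟨R, hR, hinj⟩ := exists_many (hfin.toFinset.card)
  have h1 : (Finset.range (hfin.toFinset.card + 1)).card ≤ hfin.toFinset.card := by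
    refine Finset.card_le_card_of_injOn R (fun i _ => ?_) ?_
    · rw [Finset.mem_coe, Set.Finite.mem_toFinset]; exact hR i
    · intro i hi j hj hij
      rw [Finset.mem_coe, Finset.mem_range] at hi hj
      exact hinj i (by omega) j (by omega) hij
  rw [Finset.card_range] at h1
  omega

end Pool.Agent.Results.MP_be5e04_al.HeisenbergManyIdeals
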